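import Pool.Agent.Helper15_OCG.Strategy

/-!
OBreaker wins the biased oriented-cycle game under the monotone rules for all biases above
`4 n / 5`.
-/

namespace Pool.Agent.Results.MP_64dd91_co.BreakerBound

open Finset Pool.Agent.Helper51_OCG Pool.Agent.Helper15_OCG

/-- For all `n` and `b` with `5 b ≥ 4 n + 1`, OMaker, who moves first, cannot force a directed
cycle in the `b`-biased oriented-cycle game on `K_n` under the monotone rules. -/
theorem result (n b : ℕ) (hb : 4 * n + 1 ≤ 5 * b) :
    ¬ OMakerWins (monotoneRule b) (∅ : Position n) :=
  breaker_monotone n b hb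

end Pool.Agent.Results.MP_64dd91_co.BreakerBound
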