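import Pool.Agent.Helper16_OCG.Final

/-!
OMaker wins the biased oriented-cycle game for all biases up to `(2 - √2 - o(1)) n`, under the
monotone rules and under the strict rules.
-/

namespace Pool.Agent.Results.MP_64dd91_co.MakerBound

open Pool.Agent.Helper51_OCG

/-- For every `ε > 0` and all large `n`, OMaker wins the `b`-biased oriented-cycle game on `K_n`
under the monotone rules and under the strict rules, whenever `1 ≤ b ≤ (2 - √2 - ε) n`. -/
theorem result (ε : ℝ) (hε : 0 < ε) :
    ∃ n₀ : ℕ, ∀ n ≥ n₀, ∀ b : ℕ, 1 ≤ b → (b : ℝ) ≤ (2 - Real.sqrt 2 - ε) * n →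
      OMakerWins (monotoneRule b) (∅ : Position n) ∧
      OMakerWins (strictRule b) (∅ : Position n) :=
  Pool.Agent.Helper16_OCG.maker ε hε

end Pool.Agent.Results.MP_64dd91_co.MakerBound
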