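import Pool.Agent.Helper16_OCG.StrictPre

/-!
OBreaker wins the biased oriented-cycle game under the strict rules for all biases at least
`(9 n + 25) / 10`.
-/

namespace Pool.Agent.Results.MP_64dd91_co.StrictBreakerBound

open Finset Pool.Agent.Helper51_OCG

/-- For all `n` and `b` with `10 b ≥ 9 n + 25`, OMaker, who moves first, cannot force a directed
cycle in the `b`-biased oriented-cycle game on `K_n` under the strict rules. -/
theorem result (n b : ℕ) (hb : 9 * n + 25 ≤ 10 * b) :
    ¬ OMakerWins (strictRule b) (∅ : Position n) :=
  Pool.Agent.Helper16_OCG.breaker_strict n b hb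

end Pool.Agent.Results.MP_64dd91_co.StrictBreakerBound
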